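import Mathlib
import Pool.Agent.H19.OsC

set_option autoImplicit false

namespace Pool.Agent.Results.MP_88e1ca_an.TwoSided

open Pool.Agent.H19.Os in
/-- There is a two-sided subshift `X` over a finite alphabet with an automorphism `f` (inverse `g`),
both of one-sided radius, such that `f` has infinite order and `rad (f ^ n) = o(n)`. -/
theorem result :
    ∃ (A : Type) (_ : Finite A) (_ : TopologicalSpace A) (_ : DiscreteTopology A)
      (X : Set (ℤ → A)) (f g : (ℤ → A) → (ℤ → A)),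
      X.Nonempty ∧ IsClosed X ∧ (∀ x, x ∈ X ↔ (fun i => x (i + 1)) ∈ X) ∧
      Set.MapsTo f X X ∧ Set.MapsTo g X X ∧ (∀ x ∈ X, g (f x) = x) ∧ (∀ x ∈ X, f (g x) = x) ∧
      ContinuousOn f X ∧ ContinuousOn g X ∧
      (∀ x ∈ X, f (fun i => x (i + 1)) = fun i => f x (i + 1)) ∧
      (∃ r : ℕ, ∀ x ∈ X, ∀ y ∈ X, ∀ i : ℤ,
        (∀ j : ℕ, j ≤ r → x (i + j) = y (i + j)) → f x i = f y i) ∧
      (∃ r : ℕ, ∀ x ∈ X, ∀ y ∈ X, ∀ i : ℤ,
        (∀ j : ℕ, j ≤ r → x (i + j) = y (i + j)) → g x i = g y i) ∧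
      (∀ n : ℕ, 0 < n → ∃ x ∈ X, f^[n] x ≠ x) ∧
      (∀ ε : ℝ, 0 < ε → ∃ N : ℕ, ∀ n ≥ N, ∃ r : ℕ, (r : ℝ) ≤ ε * n ∧
        ∀ x ∈ X, ∀ y ∈ X, ∀ i : ℤ,
          (∀ j : ℕ, j ≤ r → x (i + j) = y (i + j)) → f^[n] x i = f^[n] y i) := by
  have hc : ∀ F : A → A → A, Continuous fun (x : ℤ → A) (i : ℤ) => F (x i) (x (i + 1)) := by
    intro F
    refine continuous_pi fun i => ?_
    have h : Continuous fun x : ℤ → A => (x i, x (i + 1)) :=
      (continuous_apply i).prodMk (continuous_apply (i + 1))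
    exact (continuous_of_discreteTopology (f := fun p : A × A => F p.1 p.2)).comp h
  have hr : ∀ (F : A → A → A) (x y : ℤ → A) (i : ℤ),
      (∀ j : ℕ, j ≤ 1 → x (i + j) = y (i + j)) → F (x i) (x (i + 1)) = F (y i) (y (i + 1)) := by
    intro F x y i h
    have h0 := h 0 (by norm_num)
    have h1 := h 1 le_rfl
    simp only [Nat.cast_zero, add_zero, Nat.cast_one] at h0 h1
    rw [h0, h1]
  refine ⟨A, inferInstance, inferInstance, inferInstance, XZ, fZ, gZ, ?_, XZ_closed, XZ_sh,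
    fun _ => XZ_f, fun _ => XZ_g, fun _ => gZ_fZ, fun _ => fZ_gZ, (hc phi).continuousOn,
    (hc psi).continuousOn, fun _ _ => rfl, ⟨1, fun x _ y _ => hr phi x y⟩,
    ⟨1, fun x _ y _ => hr psi x y⟩, fZ_order, sublinZ⟩
  obtain ⟨x, hx⟩ := X_ne
  obtain ⟨z, hz, -⟩ := XZ_ext hx
  exact ⟨z, hz⟩

end Pool.Agent.Results.MP_88e1ca_an.TwoSided
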